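import Pool.Agent.Y450.ETR.Ultra

/-!
# Spin models in the Bose-Mesner algebras of self-dual exactly triply regular schemes

Every Bose-Mesner algebra contains a spin model of Potts type (a combination of `I` and `J - I`).
The iterated wreath powers of the complete graph scheme `K_q`, `q ≥ 3`, are formally self-dual and
exactly triply regular, and their Bose-Mesner algebras contain no other spin models.
-/

set_option autoImplicit false

namespace Pool.Agent.Results.MP_a35cac_co.PottsOnly

open Finset Pool.Agent.Results.MP_44674b_co.WreathExact Pool.Agent.Y649.ETR Pool.Agent.Y450.ETR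

/-- A spin model on `X`: a symmetric matrix without zero entries which satisfies the type II and the
type III condition. -/
structure IsSpinModel {X : Type} [Fintype X] [DecidableEq X] (W : Matrix X X ℂ) : Prop where
  symm : ∀ a b, W a b = W b a
  ne_zero : ∀ a b, W a b ≠ 0
  typeII : ∀ a b, ∑ x, W a x / W b x = if a = b then (Fintype.card X : ℂ) else 0
  typeIII : ∃ D : ℂ, D ^ 2 = Fintype.card X ∧
    ∀ a b c, ∑ x, W a x * W b x / W c x = D * (W a b / (W a c * W b c))

/-- The matrix with diagonal entries `t` and other entries `b`. -/
def potts (X : Type) [DecidableEq X] (t b : ℂ) : Matrix X X ℂ := fun x y => if x = y then t else b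

section Potts

variable {X : Type} [Fintype X] [DecidableEq X]

lemma sum_two (a b : X) (p q r s : ℂ) :
    ∑ x, (if a = x then p else q) * (if b = x then r else s) =
      Fintype.card X * (q * s) + (p - q) * s + q * (r - s)
        + (if a = b then (p - q) * (r - s) else 0) := by
  have h : ∀ x, (if a = x then p else q) * (if b = x then r else s) =
      q * s + (if a = x then (p - q) * s else 0) + (if b = x then q * (r - s) else 0)
        + (if a = x then (if a = b then (p - q) * (r - s) else 0) else 0) := by
    intro x
    by_cases h1 : a = x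
    · subst h1
      by_cases h2 : b = a
      · subst h2; simp; ring
      · rw [if_pos rfl, if_pos rfl, if_neg h2, if_neg h2, if_neg (Ne.symm h2)]
        simp; ring
    · by_cases h2 : b = x
      · subst h2; simp [h1]; ring
      · simp [h1, h2]
  rw [Finset.sum_congr rfl fun x _ => h x]
  simp only [Finset.sum_add_distrib, Finset.sum_ite_eq, Finset.mem_univ, if_true,
    Finset.sum_const, Finset.card_univ, nsmul_eq_mul]

lemma sum_three (a b c : X) (p q r s : ℂ) :
    ∑ x, (if a = x then p else q) * (if b = x then p else q) * (if c = x then r else s) =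
      (if a = b then Fintype.card X * (q * q * s) + (p * p - q * q) * s + q * q * (r - s)
        + (if a = c then (p * p - q * q) * (r - s) else 0)
      else Fintype.card X * (q * q * s) + 2 * ((p - q) * q) * s + q * q * (r - s)
        + (if a = c then (p - q) * q * (r - s) else 0)
        + (if b = c then (p - q) * q * (r - s) else 0)) := by
  by_cases hab : a = b
  · subst hab
    rw [if_pos rfl]
    have h : ∀ x, (if a = x then p else q) * (if a = x then p else q) * (if c = x then r else s)
        = (if a = x then p * p else q * q) * (if c = x then r else s) := by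
      intro x
      by_cases h1 : a = x <;> simp [h1]
    rw [Finset.sum_congr rfl fun x _ => h x, sum_two]
  · rw [if_neg hab]
    have h : ∀ x, (if a = x then p else q) * (if b = x then p else q) * (if c = x then r else s)
        = (if a = x then p * q else q * q) * (if c = x then r else s)
          + (if b = x then p * q else q * q) * (if c = x then r else s)
          - (q * q) * (if c = x then r else s) := by
      intro x
      by_cases h1 : a = x
      · have h2 : b ≠ x := fun h => hab (h1.trans h.symm)
        simp [h1, h2]
      · by_cases h2 : b = x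
        · simp only [h1, h2, if_true, if_false]
          split_ifs <;> ring
        · simp [h1, h2]
    have h4 : ∑ x, (q * q) * (if c = x then r else s)
        = Fintype.card X * (q * q * s) + q * q * (r - s) := by
      have h5 : ∀ x, (q * q) * (if c = x then r else s) = q * q * s
          + (if c = x then q * q * (r - s) else 0) := by
        intro x
        by_cases h1 : c = x <;> simp [h1]
        ring
      rw [Finset.sum_congr rfl fun x _ => h5 x]
      simp only [Finset.sum_add_distrib, Finset.sum_ite_eq, Finset.mem_univ, if_true,
        Finset.sum_const, Finset.card_univ, nsmul_eq_mul]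
    rw [Finset.sum_congr rfl fun x _ => h x, Finset.sum_sub_distrib, Finset.sum_add_distrib,
      sum_two, sum_two, h4]
    split_ifs <;> ring

/-- the Potts model -/
theorem potts_spin (X : Type) [Fintype X] [DecidableEq X] :
    ∃ t b : ℂ, IsSpinModel (potts X t b) := by
  obtain ⟨D, hD⟩ := IsAlgClosed.exists_pow_nat_eq (Fintype.card X : ℂ) (n := 2) (by norm_num)
  -- `w + w⁻¹ = -D`
  obtain ⟨w, hw0, hw⟩ : ∃ w : ℂ, w ≠ 0 ∧ w ^ 2 + D * w + 1 = 0 := by
    obtain ⟨z, hz⟩ := IsAlgClosed.exists_pow_nat_eq (D ^ 2 - 4 : ℂ) (n := 2) (by norm_num)
    have h : ((-D + z) / 2) ^ 2 + D * ((-D + z) / 2) + 1 = 0 := by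
      linear_combination (1 / 4) * hz
    refine ⟨(-D + z) / 2, ?_, h⟩
    intro h0
    rw [h0] at h
    norm_num at h
  obtain ⟨u, hu⟩ := IsAlgClosed.exists_pow_nat_eq w (n := 2) (by norm_num)
  have hu0 : u ≠ 0 := by
    rintro rfl
    apply hw0
    rw [← hu]; norm_num
  have hDu : D * u ^ 2 = -(u ^ 4 + 1) := by
    rw [← hu] at hw
    linear_combination hw
  have hn : (Fintype.card X : ℂ) * u ^ 4 = (u ^ 4 + 1) ^ 2 := by
    rw [← hD]
    linear_combination (D * u ^ 2 - (u ^ 4 + 1)) * hDu
  have hDe : D = -(u ^ 4 + 1) / u ^ 2 := by
    field_simp
    linear_combination hDu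
  have hne : (Fintype.card X : ℂ) = (u ^ 4 + 1) ^ 2 / u ^ 4 := by
    field_simp
    linear_combination hn
  have hdiv : ∀ a b : X, potts X (-u ^ 3) (u⁻¹) a b ≠ 0 := by
    intro a b
    unfold potts
    split_ifs
    · simp [hu0]
    · simp [hu0]
  have hinv : ∀ c x : X, (potts X (-u ^ 3) (u⁻¹) c x)⁻¹ = if c = x then (-u ^ 3)⁻¹ else u := by
    intro c x
    unfold potts
    split_ifs <;> simp
  refine ⟨-u ^ 3, u⁻¹, ?_, hdiv, ?_, D, hD, ?_⟩
  · intro a b
    unfold potts
    simp only [eq_comm]
  · intro a b
    have h1 : ∀ x, potts X (-u ^ 3) (u⁻¹) a x / potts X (-u ^ 3) (u⁻¹) b x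
        = (if a = x then -u ^ 3 else u⁻¹) * (if b = x then (-u ^ 3)⁻¹ else u) := by
      intro x
      rw [div_eq_mul_inv, hinv]
      rfl
    rw [Finset.sum_congr rfl fun x _ => h1 x, sum_two]
    by_cases hab : a = b
    · rw [if_pos hab, if_pos hab]
      field_simp
      ring
    · rw [if_neg hab, if_neg hab, hne]
      field_simp
      ring
  · intro a b c
    have h1 : ∀ x, potts X (-u ^ 3) (u⁻¹) a x * potts X (-u ^ 3) (u⁻¹) b x /
        potts X (-u ^ 3) (u⁻¹) c x
        = (if a = x then -u ^ 3 else u⁻¹) * (if b = x then -u ^ 3 else u⁻¹)
          * (if c = x then (-u ^ 3)⁻¹ else u) := by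
      intro x
      rw [div_eq_mul_inv, hinv]
      rfl
    rw [Finset.sum_congr rfl fun x _ => h1 x, sum_three, hne, hDe]
    unfold potts
    by_cases hab : a = b
    · subst hab
      by_cases hac : a = c
      · subst hac
        simp only [if_true]
        field_simp
        ring
      · simp only [hac, if_true, if_false]
        field_simp
        ring
    · by_cases hac : a = c
      · subst hac
        have hba : b ≠ a := fun h => hab h.symm
        simp only [hab, hba, if_true, if_false]
        field_simp
        ring
      · by_cases hbc : b = c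
        · subst hbc
          simp only [hab, if_true, if_false]
          field_simp
          ring
        · simp only [hab, hac, hbc, if_false]
          field_simp
          ring

lemma potts_mem {d : ℕ} (S : SymScheme X d) (t b : ℂ) : potts X t b ∈ boseMesner S.c := by
  rw [bm_iff]
  refine ⟨fun i => if i = 0 then t else b, fun x y => ?_⟩
  unfold potts
  simp only [S.diag]

end Potts

section Wreath

/-- Type II and type III force all off-diagonal values to be equal. -/
lemma ultra_potts {X : Type} [Fintype X] [DecidableEq X] {d : ℕ} {c : X → X → Fin (d + 1)}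
    (h : Ultra c) {W : Matrix X X ℂ} (hW : IsSpinModel W) (f : Fin (d + 1) → ℂ)
    (hf : ∀ x y, W x y = f (c x y)) {a a' : X} (ha : (c a a').val = 1)
    (hc : ∀ i, i ≠ 0 → ∃ z, c a z = i ∧ c a' z = i) :
    ∀ i, i ≠ 0 → f i = f (c a a') := by
  have hne : a ≠ a' := by
    rintro rfl
    rw [(h.diag a a).mpr rfl] at ha
    simp at ha
  have hpos : ∀ x y, x ≠ y → 1 ≤ (c x y).val := by
    intro x y hxy
    by_contra hcon
    apply hxy
    rw [← h.diag]
    apply Fin.ext
    simp only [Fin.val_zero]
    omega
  -- the rows of `a` and `a'` agree outside `a, a'`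
  have hrow : ∀ x, x ≠ a → x ≠ a' → c a x = c a' x := by
    intro x hxa hxa'
    apply le_antisymm
    · have h1 := h.tri a a' x
      have h2 : c a a' ≤ c a' x := by
        rw [Fin.le_def, ha]
        exact hpos a' x hxa'.symm
      rwa [max_eq_right h2] at h1
    · have h1 := h.tri a' a x
      have h2 : c a' a ≤ c a x := by
        rw [h.symm a' a, Fin.le_def, ha]
        exact hpos a x hxa.symm
      rwa [max_eq_right h2] at h1
  obtain ⟨D, hD, h3⟩ := hW.typeIII
  set t := f 0 with ht
  set g := f (c a a') with hg
  have hWaa : ∀ x, W x x = t := fun x => by rw [hf, (h.diag x x).mpr rfl]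
  have hWa : W a a' = g := hf _ _
  have hWa' : W a' a = g := by rw [hf, h.symm, hg]
  have ht0 : t ≠ 0 := by rw [← hWaa a]; exact hW.ne_zero _ _
  have hg0 : g ≠ 0 := by rw [← hWa]; exact hW.ne_zero _ _
  -- `t ≠ g`
  have htg : t ≠ g := by
    intro hEq
    have h2 := hW.typeII a a'
    rw [if_neg hne] at h2
    have h4 : ∀ x, W a x / W a' x = 1 := by
      intro x
      by_cases hxa : x = a
      · subst hxa
        rw [hWaa, hWa', hEq, div_self hg0]
      · by_cases hxa' : x = a'
        · subst hxa'
          rw [hWaa, hWa, hEq, div_self hg0]
        · rw [hf a x, hf a' x, hrow x hxa hxa']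
          apply div_self
          rw [← hf a' x]
          exact hW.ne_zero _ _
    rw [Finset.sum_congr rfl fun x _ => h4 x, Finset.sum_const, Finset.card_univ] at h2
    have : (0 : ℕ) < Fintype.card X := Fintype.card_pos_iff.mpr ⟨a⟩
    simp at h2
    omega
  have key : ∀ i, i ≠ 0 → (t - g) * f i = D := by
    intro i hi
    obtain ⟨z, hz, hz'⟩ := hc i hi
    have e1 := h3 a a z
    have e2 := h3 a a' z
    have hfi : f i ≠ 0 := by rw [← hz, ← hf]; exact hW.ne_zero _ _
    have hza : z ≠ a := by
      rintro rfl
      exact hi (hz.symm.trans ((h.diag z z).mpr rfl))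
    have hza' : z ≠ a' := by
      rintro rfl
      exact hi (hz'.symm.trans ((h.diag z z).mpr rfl))
    have hWz : W z a = f i := by rw [hf, h.symm, hz]
    have hWz' : W z a' = f i := by rw [hf, h.symm, hz']
    have e3 : ∑ x, W a x * W a x / W z x - ∑ x, W a x * W a' x / W z x =
        (t * t / f i - t * g / f i) + (g * g / f i - g * t / f i) := by
      rw [← Finset.sum_sub_distrib]
      have h5 : ∀ x, W a x * W a x / W z x - W a x * W a' x / W z x =
          (if a = x then (t * t / f i - t * g / f i) else 0) +
          (if a' = x then (g * g / f i - g * t / f i) else 0) := by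
        intro x
        by_cases hxa : a = x
        · subst hxa
          rw [if_pos rfl, if_neg hne.symm, hWaa, hWa', hWz, add_zero]
        · by_cases hxa' : a' = x
          · subst hxa'
            rw [if_neg hxa, if_pos rfl, hWaa, hWa, hWz', zero_add]
          · rw [if_neg hxa, if_neg hxa', hf a x, hf a' x,
              hrow x (fun h => hxa h.symm) (fun h => hxa' h.symm)]
            ring
      rw [Finset.sum_congr rfl fun x _ => h5 x]
      simp only [Finset.sum_add_distrib, Finset.sum_ite_eq, Finset.mem_univ, if_true]
    rw [e1, e2, hWaa, hWa] at e3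
    have hWaz : W a z = f i := by rw [hf, hz]
    have hWaz' : W a' z = f i := by rw [hf, hz']
    rw [hWaz, hWaz'] at e3
    field_simp at e3
    have h6 : (t - g) * ((t - g) * f i - D) = 0 := by linear_combination -e3
    rcases mul_eq_zero.mp h6 with h7 | h7
    · exact absurd (sub_eq_zero.mp h7) htg
    · exact sub_eq_zero.mp h7
  intro i hi
  have h1 := key i hi
  have h2 := key (c a a') (by
    intro h0
    rw [h0] at ha
    simp at ha)
  exact mul_left_cancel₀ (sub_ne_zero.mpr htg) (h1.trans h2.symm)

end Wreath

/-- (1) The Bose-Mesner algebra of every symmetric association scheme contains a spin model, namely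
a Potts model `t I + b (J - I)`.
(2) For every `d = n + 2 ≥ 2` and every `q ≥ 3` there is a symmetric association scheme with `d`
classes on `q ^ d` points (the iterated wreath power of the complete graph scheme `K_q`) which is
formally self-dual and exactly triply regular, and such that every spin model in its Bose-Mesner
algebra is a Potts model, so lies in the two-dimensional algebra spanned by `I` and `J`. -/
theorem result :
    (∀ (X : Type) [Fintype X] [DecidableEq X] (d : ℕ) (S : SymScheme X d),
      ∃ t b : ℂ, potts X t b ∈ boseMesner S.c ∧ IsSpinModel (potts X t b)) ∧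
    (∀ n q : ℕ, 3 ≤ q → ∃ (X : Type) (_ : Fintype X) (_ : DecidableEq X) (S : SymScheme X (n + 2)),
      Fintype.card X = q ^ (n + 2) ∧ S.FormallySelfDual ∧ S.ExactlyTriplyRegular ∧
      ∀ W ∈ boseMesner S.c, IsSpinModel W → ∃ t b : ℂ, W = potts X t b) := by
  constructor
  · intro X _ _ d S
    obtain ⟨t, b, h⟩ := potts_spin X
    exact ⟨t, b, potts_mem S t b, h⟩
  · intro n q hq
    set s : Fin (n + 2) → ℕ := fun _ => q with hs
    have hs2 : ∀ i, 2 ≤ s i := fun i => by simp only [hs]; omega
    have hU := col_ultra s
    have hcard : Fintype.card ((i : Fin (n + 2)) → Fin (s i)) = q ^ (n + 2) := by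
      rw [Fintype.card_pi]
      simp [hs]
    have hprod : ∀ m : ℕ, m ≤ n + 2 → (∏ i : Fin (n + 2), if i.val < m then s i else 1) = q ^ m := by
      intro m hm
      rw [Finset.prod_ite, Finset.prod_const_one, mul_one]
      simp only [hs, Finset.prod_const]
      congr 1
      have : (Finset.univ.filter fun i : Fin (n + 2) => i.val < m).card = m := by
        rw [Fin.card_filter_val_lt]
        omega
      exact this
    refine ⟨(i : Fin (n + 2)) → Fin (s i), inferInstance, inferInstance,
      hU.scheme (col_surj s hs2), hcard, ?_, hU.exact _, ?_⟩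
    · have x0 : (i : Fin (n + 2)) → Fin (s i) := fun i => ⟨0, by have := hs2 i; omega⟩
      refine fsd_of hU (col_surj s hs2) x0 ?_
      intro i
      unfold bsize
      rw [ball_card, ball_card, hcard, hprod _ (by have := i.isLt; omega),
        hprod _ (by have := (Fin.rev i).isLt; omega), ← pow_add]
      congr 1
      rw [Fin.val_rev]
      have := i.isLt
      omega
    · intro W hWm hW
      change W ∈ boseMesner (col s) at hWm
      obtain ⟨f, hf⟩ := bm_iff.mp hWm
      -- the points
      have hq' : ∀ i, 3 ≤ s i := fun i => hq
      let a : (i : Fin (n + 2)) → Fin (s i) := fun i => ⟨0, by have := hs2 i; omega⟩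
      let a' : (i : Fin (n + 2)) → Fin (s i) := Function.update a 0 ⟨1, by have := hs2 0; omega⟩
      have ha : col s a a' = (0 : Fin (n + 2)).succ := by
        apply col_eq_succ
        · simp [a, a']
        · intro i hi
          have : i ≠ 0 := hi.ne'
          simp [a', Function.update_of_ne this]
      have hz : ∀ j : Fin (n + 2), ∃ z, col s a z = j.succ ∧ col s a' z = j.succ := by
        intro j
        refine ⟨Function.update a j ⟨2, by have := hq' j; omega⟩, ?_, ?_⟩
        · apply col_eq_succ
          · simp [a]
          · intro i hi
            rw [Function.update_of_ne hi.ne']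
        · apply col_eq_succ
          · by_cases hj : j = 0
            · subst hj
              simp [a']
            · simp only [a', Function.update_of_ne hj, Function.update_self]
              simp [a]
          · intro i hi
            have hi0 : i ≠ 0 := by
              rintro rfl
              exact absurd hi (Fin.not_lt_zero j)
            rw [Function.update_of_ne hi.ne']
            simp only [a', Function.update_of_ne hi0]
      have hall := ultra_potts hU hW f hf (a := a) (a' := a') (by rw [ha]; simp) (by
        intro i hi
        obtain ⟨j, rfl⟩ := Fin.exists_succ_eq.mpr hi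
        exact hz j)
      refine ⟨f 0, f (col s a a'), ?_⟩
      ext x y
      rw [hf]
      unfold potts
      by_cases hxy : x = y
      · rw [if_pos hxy, (hU.diag x y).mpr hxy]
      · rw [if_neg hxy]
        exact hall _ (fun h => hxy ((hU.diag x y).mp h))

end Pool.Agent.Results.MP_a35cac_co.PottsOnly
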